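import Mathlib
import Pool.Agent.H25.GL.Circ
import Pool.Agent.H25.GL.AE

/-!
# The circle problem along dilations of a sequence: the dimension of the set of exceptional dilations, from both sides

Let `P(t) = #{p ∈ ℤ² : |p| ≤ t} - πt²`, let `0 < τ ≤ 1` and let `u_k > 0` be a sequence with `∑ u_k^(-t) < ∞` for all
`t > τ` (for instance `u_k = k ^ (1/τ)`). For `θ` and `β ≥ 0` let `Bad θ β u p q` be the set of the dilations
`α ∈ (p, q)` such that `|P(s)| > s ^ θ` for some `s` with `|s - α u_k| ≤ (α u_k)^(-β)`, for infinitely many `k`.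

1. Upper bound: for `0 < η ≤ 1/6` and `0 ≤ β ≤ min (4η) (1 - 4η)` the set `Bad (1/2 + η) β u p q` has Hausdorff
   dimension at most `(1 + τ - 6η)/(1 + β)`.
2. So for almost all `α > 0` and all `ε > 0`: `|P(s)| ≤ s ^ (1/2 + (τ - β)/6 + ε)` for all `s` with
   `|s - α u_k| ≤ (α u_k)^(-β)`, for all large `k` (for every `0 ≤ β ≤ 2τ/5`).
3. Lower bounds: suppose that `u_{k+1} ≤ u_k + C u_k^(1-τ)` for all large `k`.
   * If `|P(s)| > s ^ θ` for arbitrarily large `s`, then `Bad θ β u p q` has dimension at least `τ/(1 + β)`, for all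
     `β ≥ 0` and all `0 < p < q`. So the dimension is zero or at least `τ/(1 + β)`.
   * For the points `α u_k` themselves: if `0 ≤ θ' < θ ≤ 1` and `|P(s)| > s ^ θ` for arbitrarily large `s`, then the set
     of the `α ∈ (p, q)` with `|P(α u_k)| > (α u_k) ^ θ'` for infinitely many `k` has dimension at least `τ/(2 - θ)`.
   * Criterion: the conjecture of the circle problem holds if and only if for every `η > 0` there is an interval `(p, q)`
     in which the set of the `α` with `|P(α u_k)| > (α u_k) ^ (1/2 + η)` for infinitely many `k` has dimension less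
     than `2τ/3`. (Less than `2/3` for `u_k = k`.)

Method: for the upper bound Voronoi summation, Halász–Montgomery duality, the third derivative test for the kernel
`∑ e(s √m)` for its short blocks and the second derivative test for its long blocks, and coverings; for the lower
bounds the monotonicity of the number of lattice points and a one-dimensional mass transference principle.
-/

set_option autoImplicit false

open Filter MeasureTheory

namespace Pool.Agent.Results.MP_fb29e9_nt.DilationDimension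

/-- the error term of the circle problem -/
noncomputable def P (t : ℝ) : ℝ :=
  (Nat.card {p : ℤ × ℤ // (p.1 : ℝ) ^ 2 + (p.2 : ℝ) ^ 2 ≤ t ^ 2} : ℝ) - Real.pi * t ^ 2

/-- the dilations `α` between `p` and `q` such that, for infinitely many `k`, `|P(s)| > s ^ θ` for some `s` within
`(α u_k) ^ (-β)` of `α u_k` -/
def Bad (θ β : ℝ) (u : ℕ → ℝ) (p q : ℝ) : Set ℝ :=
  {α | p < α ∧ α < q ∧ ∃ᶠ k in atTop, ∃ s : ℝ, |s - α * u k| ≤ (α * u k) ^ (-β) ∧ s ^ θ < |P s|}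

/-- the dilations `α` between `p` and `q` such that `|P(α u_k)| > (α u_k) ^ θ` for infinitely many `k` -/
def BadPts (θ : ℝ) (u : ℕ → ℝ) (p q : ℝ) : Set ℝ :=
  {α | p < α ∧ α < q ∧ ∃ᶠ k in atTop, (α * u k) ^ θ < |P (α * u k)|}

theorem result (τ : ℝ) (hτ0 : 0 < τ) (hτ1 : τ ≤ 1) (u : ℕ → ℝ) (hu : ∀ k, 0 < u k)
    (hsum : ∀ t : ℝ, τ < t → Summable (fun k => (u k) ^ (-t))) :
    -- upper bound for the dimension
    (∀ η β : ℝ, 0 < η → η ≤ 1 / 6 → 0 ≤ β → β ≤ 4 * η → β ≤ 1 - 4 * η → ∀ p q : ℝ, 0 < p → p < q →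
      dimH (Bad (1 / 2 + η) β u p q) ≤ ENNReal.ofReal ((1 + τ - 6 * η) / (1 + β))) ∧
    -- almost all dilations
    (∀ β : ℝ, 0 ≤ β → β ≤ 2 / 5 * τ → τ - β < 1 → ∀ᵐ α : ℝ, 0 < α → ∀ ε : ℝ, 0 < ε → ∀ᶠ k in atTop,
      ∀ s : ℝ, |s - α * u k| ≤ (α * u k) ^ (-β) → |P s| ≤ s ^ (1 / 2 + (τ - β) / 6 + ε)) ∧
    -- lower bounds, for sequences without large gaps
    (∀ C : ℝ, (∀ᶠ k in atTop, u (k + 1) ≤ u k + C * (u k) ^ (1 - τ)) →
      (∀ θ β : ℝ, 0 ≤ β → (∃ᶠ s in atTop, s ^ θ < |P s|) → ∀ p q : ℝ, 0 < p → p < q →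
        ENNReal.ofReal (τ / (1 + β)) ≤ dimH (Bad θ β u p q)) ∧
      (∀ θ θ' : ℝ, 0 ≤ θ' → θ' < θ → θ ≤ 1 → (∃ᶠ s in atTop, s ^ θ < |P s|) → ∀ p q : ℝ, 0 < p → p < q →
        ENNReal.ofReal (τ / (2 - θ)) ≤ dimH (BadPts θ' u p q)) ∧
      -- the criterion
      ((∀ ε : ℝ, 0 < ε → ∃ K R₀ : ℝ, ∀ R : ℝ, R₀ ≤ R → |P R| ≤ K * R ^ (1 / 2 + ε)) ↔
        ∀ η : ℝ, 0 < η → ∃ p q : ℝ, 0 < p ∧ p < q ∧
          dimH (BadPts (1 / 2 + η) u p q) < ENNReal.ofReal (2 * τ / 3))) := by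
  have hutop := Pool.Agent.H25.GL.top_of_sum hτ0.le u hu hsum
  have hgood : ∀ θ β x : ℝ, (∃ s : ℝ, |s - x| ≤ x ^ (-β) ∧ s ^ θ < |P s|) ↔ ¬ Pool.Agent.H25.GC.Good θ β x := by
    intro θ β x
    unfold Pool.Agent.H25.GC.Good
    push Not
    rfl
  refine ⟨?_, ?_, ?_⟩
  · intro η β hη hη1 hβ0 hβ1 hβ2 p q hp hpq
    refine le_trans (dimH_mono ?_) (Pool.Agent.H25.GC.dim_bad hτ0.le hη hη1 hβ0 hβ1 hβ2 u hu hsum)
    rintro α ⟨h1, h2, h3⟩
    exact ⟨hp.trans h1, h3.mono (fun k hk => (hgood _ _ _).mp hk)⟩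
  · intro β hβ0 hβ hτβ
    exact Pool.Agent.H25.GL.ae_near hτ0.le hτ1 hβ0 hβ hτβ u hu hsum
  · intro C hgap
    refine ⟨?_, ?_, ?_⟩
    · intro θ β hβ hbig p q hp hpq
      refine le_trans (Pool.Agent.H25.GL.near_lower hτ0 hτ1 hβ hp hpq u hutop hgap hbig) (dimH_mono ?_)
      rintro α ⟨h1, h2, h3⟩
      exact ⟨h1, h2, h3.mono (fun k hk => (hgood _ _ _).mpr hk)⟩
    · intro θ θ' hθ0 hθ hθ1 hbig p q hp hpq
      exact Pool.Agent.H25.GL.point_lower hτ0 hτ1 hθ0 hθ hθ1 hp hpq u hutop hgap hbig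
    · have h := Pool.Agent.H25.GL.criterion (Θ := 1 / 2) hτ0 hτ1 (by norm_num) (by norm_num) u hutop hgap
      rw [show τ / (2 - 1 / 2) = 2 * τ / 3 by ring] at h
      exact h

end Pool.Agent.Results.MP_fb29e9_nt.DilationDimension
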